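import Pool.Agent.P.MP_bb4f54_co.T4.All

set_option autoImplicit false

namespace Pool.Agent.Results.MP_bb4f54_co.CubicReduction

/-- There is `N` such that every nonempty finite cubic graph has a cycle of length `a ^ 2` with
`a ≥ 2`, or has a nonempty set `X` of at most `N` vertices with at most two edges between `X` and
its complement. -/
theorem result : ∃ N : ℕ, ∀ (V : Type) [Fintype V] [DecidableEq V] [Nonempty V]
    (G : SimpleGraph V) [DecidableRel G.Adj], (∀ v, G.degree v = 3) →
      (∃ a : ℕ, 2 ≤ a ∧ ∃ (v : V) (c : G.Walk v v), c.IsCycle ∧ c.length = a ^ 2) ∨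
        ∃ X : Finset V, X.Nonempty ∧ X.card ≤ N ∧ (G.interedges X Xᶜ).card ≤ 2 :=
  Pool.Agent.P.MP_bb4f54_co.T4.q_FRC

end Pool.Agent.Results.MP_bb4f54_co.CubicReduction
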