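import Pool.Agent.P.MP_bb4f54_co.Iso.Main

set_option autoImplicit false

namespace Pool.Agent.Results.MP_bb4f54_co.Isoperimetric

/-- For every `q ≥ 2` there is `C` such that every finite graph has a cycle of length `a ^ q`
with `a ≥ 2`, or has, for every `N` up to its number of vertices, a set of exactly `N` vertices
with at most `C * N ^ (1 - 1 / (8 q))` neighbours outside the set. -/
theorem result : ∀ q : ℕ, 2 ≤ q → ∃ C : ℝ, ∀ (V : Type) [Fintype V] [DecidableEq V]
    (G : SimpleGraph V) [DecidableRel G.Adj],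
      (∃ a : ℕ, 2 ≤ a ∧ ∃ (v : V) (c : G.Walk v v), c.IsCycle ∧ c.length = a ^ q) ∨
        ∀ N : ℕ, N ≤ Fintype.card V → ∃ X : Finset V, X.card = N ∧
          ((Finset.univ.filter fun v => v ∉ X ∧ ∃ u ∈ X, G.Adj u v).card : ℝ) ≤
            C * (N : ℝ) ^ (1 - 1 / (8 * (q : ℝ))) := by
  intro q hq
  obtain ⟨C, H⟩ := Pool.Agent.P.MP_bb4f54_co.Iso.main q hq
  refine ⟨C, fun V _ _ G _ => (H V G).imp_right fun h N hN => (h N hN).imp fun X k => ⟨k.1, ?_⟩⟩
  convert k.2 using 3
  ext v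
  simp [Pool.Agent.P.MP_bb4f54_co.Iso.mem_nb]

end Pool.Agent.Results.MP_bb4f54_co.Isoperimetric
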