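import Pool.Agent.P.MP_bb4f54_co.Main

set_option autoImplicit false

namespace Pool.Agent.Results.MP_bb4f54_co.LargeGirth

/-- There is an absolute constant `g` such that every finite graph with minimum degree at least 3
and girth at least `g` has, for some `k ≥ 2`, cycles of every even length between `2 ^ k` and
`4 ^ k`; in particular a cycle of length `2 ^ k`. -/
theorem result : ∃ g : ℕ, ∀ (V : Type) [Fintype V] [DecidableEq V] (G : SimpleGraph V)
    [DecidableRel G.Adj], 3 ≤ G.minDegree → (g : ℕ∞) ≤ G.egirth →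
      ∃ k : ℕ, 2 ≤ k ∧ ∀ t : ℕ, Even t → 2 ^ k ≤ t → t ≤ 4 ^ k →
        ∃ (v : V) (c : G.Walk v v), c.IsCycle ∧ c.length = t :=
  Pool.Agent.P.MP_bb4f54_co.main

end Pool.Agent.Results.MP_bb4f54_co.LargeGirth
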