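import Pool.Agent.P.MP_bb4f54_co.Tr.Main

set_option autoImplicit false

namespace Pool.Agent.Results.MP_bb4f54_co.Transitive

/-- For all `q ≥ 2` and `k` there is `N` such that every finite connected graph on at least `N`
vertices, without cut vertex, with `3 ≤ δ`, `Δ ≤ k δ`, and whose automorphism group has at most
`k` orbits on vertices, has a cycle of length `a ^ q` for some `a ≥ 2`. -/
theorem result : ∀ q k : ℕ, 2 ≤ q → ∃ N : ℕ, ∀ (V : Type) [Fintype V] [DecidableEq V]
    (G : SimpleGraph V) [DecidableRel G.Adj], N ≤ Fintype.card V → G.Connected →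
    (∀ v : V, (G.induce ({v}ᶜ : Set V)).Connected) → 3 ≤ G.minDegree →
    G.maxDegree ≤ k * G.minDegree →
    (∃ S : Finset V, S.card ≤ k ∧ ∀ v : V, ∃ φ : G ≃g G, φ v ∈ S) →
    ∃ a : ℕ, 2 ≤ a ∧ ∃ (v : V) (c : G.Walk v v), c.IsCycle ∧ c.length = a ^ q :=
  fun q k hq => Pool.Agent.P.MP_bb4f54_co.Tr.main q k (by omega)

end Pool.Agent.Results.MP_bb4f54_co.Transitive
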